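import Pool.Agent.Y412.OM.TWa
import Pool.Agent.W184.NZ.Win

set_option autoImplicit false

/-! Project OM (helper746), job TW: second moment of zeta against a Dirichlet polynomial and the
resonator. -/

namespace Pool.Agent.Y412.OM

open Finset Filter MeasureTheory
open Pool.Agent.Y746.OM
open Pool.Agent.H306R2.SM (om cl Yf)
open Pool.Agent.H262R4.TM (Rng Ck)
open Pool.Agent.W184.NZ (wz wz_int wz_nonneg win)

noncomputable section

/-- a Dirichlet polynomial on the critical line -/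
def DL (A : ℕ → ℂ) (H : ℕ) (t : ℝ) : ℂ := ∑ j ∈ Icc 1 H, A j * (j : ℂ) ^ (-(cl t))

lemma DL_cont (A : ℕ → ℂ) (H : ℕ) : Continuous (DL A H) := by
  unfold DL
  refine continuous_finsetSum _ fun m hm => continuous_const.mul ?_
  have hcl : Continuous cl := by unfold cl; fun_prop
  rw [mem_Icc] at hm
  exact Continuous.const_cpow (by fun_prop) (Or.inl (by exact_mod_cast (by omega : m ≠ 0)))

lemma DL_norm (A : ℕ → ℂ) (H : ℕ) (t : ℝ) : ‖DL A H t‖ ≤ ∑ j ∈ Icc 1 H, ‖A j‖ := by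
  unfold DL
  refine (norm_sum_le _ _).trans (sum_le_sum fun m hm => ?_)
  rw [mem_Icc] at hm
  rw [norm_mul, Complex.norm_natCast_cpow_of_pos (by omega)]
  have a1 : (m:ℝ) ^ ((-(cl t)).re) ≤ 1 := by
    refine Real.rpow_le_one_of_one_le_of_nonpos (by exact_mod_cast hm.1) ?_
    unfold cl; simp
  exact mul_le_of_le_one_right (norm_nonneg _) a1

lemma Ck_le' (k : ℕ) (hk : 1 ≤ k) : Real.log k ≤ Ck k ∧ Ck k ≤ 2 + Real.log k := by
  unfold Pool.Agent.H262R4.TM.Ck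
  have h1 := harmonic_le_one_add_log k
  have h2 := log_add_one_le_harmonic k
  have h3 : Real.eulerMascheroniConstant < 2 / 3 := Real.eulerMascheroniConstant_lt_two_thirds
  have h4 : 1 / 2 < Real.eulerMascheroniConstant := Real.one_half_lt_eulerMascheroniConstant
  have hk0 : (0 : ℝ) < k := by exact_mod_cast hk
  have h5 : Real.log k ≤ Real.log ((k : ℝ) + 1) := Real.log_le_log hk0 (by linarith)
  push_cast at h2
  constructor <;> linarith

lemma Lc_bound' {X : ℝ} {k : ℕ} (hk : 1 ≤ k) (hX : 7 ≤ X) :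
    0 ≤ Real.log (Yf k X) + Ck k ∧ Real.log (Yf k X) + Ck k ≤ Real.log X + 2 := by
  obtain ⟨h1, h2⟩ := Ck_le' k hk
  have hk0 : (0 : ℝ) < k := by exact_mod_cast hk
  have hpi := Real.pi_pos
  have h3 : Real.log (Yf k X) = Real.log X - Real.log (2 * Real.pi) - Real.log k := by
    unfold Pool.Agent.H306R2.SM.Yf
    rw [Real.log_div (by linarith) (by positivity), Real.log_mul (by positivity) hk0.ne']
    ring
  have h4 : Real.log (2 * Real.pi) ≤ Real.log X := by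
    refine Real.log_le_log (by positivity) ?_
    have := Real.pi_lt_d2
    linarith
  have h5 : 0 ≤ Real.log (2 * Real.pi) := Real.log_nonneg (by linarith [Real.pi_gt_three])
  constructor <;> linarith

lemma log_bd {x : ℝ} {k : ℕ} (hk : 1 ≤ k) (hx : 7 ≤ x) (hl2 : 2 ≤ Real.log x) {h l : ℕ}
    (hh : 1 ≤ h) (hl : 1 ≤ l) (hhx : (h : ℝ) ≤ x ^ (1 / 4 : ℝ)) (hlx : (l : ℝ) ≤ x ^ (1 / 4 : ℝ)) :
    |Real.log (Yf k x * (Nat.gcd h l : ℝ) ^ 2 / ((h : ℝ) * l)) + Ck k| ≤ 2 * Real.log x := by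
  obtain ⟨b1, b2⟩ := Lc_bound' hk hx
  have hx0 : 0 < x := by linarith
  have hk0 : (0 : ℝ) < k := by exact_mod_cast hk
  have hYf : 0 < Yf k x := by
    unfold Pool.Agent.H306R2.SM.Yf
    have := Real.pi_pos
    positivity
  have h0 : (0 : ℝ) < h := by exact_mod_cast hh
  have l0 : (0 : ℝ) < l := by exact_mod_cast hl
  have gp : 0 < Nat.gcd h l := Nat.gcd_pos_of_pos_left _ hh
  have g0 : (0 : ℝ) < Nat.gcd h l := by exact_mod_cast gp
  have g1 : (1 : ℝ) ≤ Nat.gcd h l := by exact_mod_cast gp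
  have g2 : (Nat.gcd h l : ℝ) ≤ h := by exact_mod_cast Nat.gcd_le_left l hh
  have g3 : (Nat.gcd h l : ℝ) ≤ l := by exact_mod_cast Nat.gcd_le_right h hl
  have e : Real.log (Yf k x * (Nat.gcd h l : ℝ) ^ 2 / ((h : ℝ) * l)) =
      Real.log (Yf k x) + 2 * Real.log (Nat.gcd h l) - Real.log h - Real.log l := by
    rw [Real.log_div (by positivity) (by positivity), Real.log_mul (by positivity) (by positivity),
      Real.log_mul (by positivity) (by positivity), Real.log_pow]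
    push_cast
    ring
  rw [e]
  have c1 : 0 ≤ Real.log (Nat.gcd h l) := Real.log_nonneg g1
  have c2 : Real.log (Nat.gcd h l) ≤ Real.log h := Real.log_le_log g0 g2
  have c3 : Real.log (Nat.gcd h l) ≤ Real.log l := Real.log_le_log g0 g3
  have c4 : Real.log h ≤ 1 / 4 * Real.log x := by
    rw [← Real.log_rpow hx0]
    exact Real.log_le_log h0 hhx
  have c5 : Real.log l ≤ 1 / 4 * Real.log x := by
    rw [← Real.log_rpow hx0]
    exact Real.log_le_log l0 hlx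
  rw [abs_le]
  constructor <;> linarith

/-- upper bound of the smooth moment -/
theorem smooth : ∃ η : ℝ, 0 < η ∧ ∀ᶠ x : ℝ in atTop, ∀ k : ℕ, Rng x k → ∀ H : ℕ,
    (H : ℝ) ≤ x ^ (1 / 4 : ℝ) → ∀ (A : ℕ → ℂ) (M : ℝ), 0 ≤ M → (∀ n, ‖A n‖ ≤ M) →
    ∫ t in Set.Ioi (0 : ℝ), wz k x t * ‖DL A H t‖ ^ 2 ≤
      2 * Real.log x *
        (∑ h ∈ Icc 1 H, ∑ l ∈ Icc 1 H, ‖A h‖ * ‖A l‖ * (1 / (Nat.lcm h l : ℝ))) +
      M ^ 2 * x ^ (-η) := by
  obtain ⟨η, hη, h⟩ := Pool.Agent.H262R4.TM.f_TSM2 (1 / 4) (by norm_num)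
  refine ⟨η, hη, ?_⟩
  filter_upwards [h, eventually_ge_atTop (7 : ℝ), Real.tendsto_log_atTop.eventually_ge_atTop 2]
    with x hx hx7 hl2 k hk H hH A M hM hA
  have hx0 : 0 < x := by linarith
  have hk1 : 1 ≤ k := by
    have h1 := hk.1
    have h2 : (1 : ℝ) ≤ k := by nlinarith
    exact_mod_cast h2
  have hD0 : 0 ≤ ∑ h ∈ Icc 1 H, ∑ l ∈ Icc 1 H, ‖A h‖ * ‖A l‖ * (1 / (Nat.lcm h l : ℝ)) :=
    sum_nonneg fun _ _ => sum_nonneg fun _ _ => by positivity
  rcases hM.eq_or_lt with hM0 | hM0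
  · have hA0 : ∀ n, A n = 0 := fun n => by
      have := hA n
      rw [← hM0] at this
      exact norm_le_zero_iff.1 this
    have hDL : ∀ t, DL A H t = 0 := by
      intro t
      unfold DL
      refine sum_eq_zero fun j _ => ?_
      rw [hA0 j, zero_mul]
    have e : (fun t : ℝ => wz k x t * ‖DL A H t‖ ^ 2) = fun _ => 0 := by
      funext t
      rw [hDL t, norm_zero]
      ring
    rw [e]
    simp only [integral_zero]
    positivity
  · have h1 := hx k hk H hH (fun n => A n / (M : ℂ)) (fun n => by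
      rw [norm_div, Complex.norm_real, Real.norm_eq_abs, abs_of_pos hM0, div_le_one hM0]
      exact hA n)
    have e1 : ∀ t : ℝ, om k (k / x) t * ‖riemannZeta (cl t)‖ ^ 2 *
        ‖∑ n ∈ Icc 1 H, A n / (M : ℂ) * (n : ℂ) ^ (-(cl t))‖ ^ 2 =
        wz k x t * ‖DL A H t‖ ^ 2 / M ^ 2 := by
      intro t
      have e2 : ∑ n ∈ Icc 1 H, A n / (M : ℂ) * (n : ℂ) ^ (-(cl t)) = DL A H t / (M : ℂ) := by
        unfold DL
        rw [sum_div]
        refine sum_congr rfl fun n _ => ?_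
        ring
      rw [e2, norm_div, Complex.norm_real, Real.norm_eq_abs, abs_of_pos hM0, div_pow]
      unfold Pool.Agent.W184.NZ.wz
      ring
    simp_rw [e1] at h1
    rw [integral_div] at h1
    set I := ∫ t in Set.Ioi (0 : ℝ), wz k x t * ‖DL A H t‖ ^ 2 with hI
    set MT := ∑ h ∈ Icc 1 H, ∑ l ∈ Icc 1 H, A h / (M : ℂ) * (starRingEnd ℂ) (A l / (M : ℂ)) *
        ((1 / (Nat.lcm h l : ℝ) *
          (Real.log (Yf k x * (Nat.gcd h l : ℝ) ^ 2 / ((h : ℝ) * l)) + Ck k) : ℝ) : ℂ) with hMT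
    have h2 : I / M ^ 2 ≤ ‖MT‖ + x ^ (-η) := by
      have h3 : ‖((I / M ^ 2 : ℝ) : ℂ)‖ ≤ ‖MT‖ + ‖((I / M ^ 2 : ℝ) : ℂ) - MT‖ := by
        have h4 : ((I / M ^ 2 : ℝ) : ℂ) = MT + (((I / M ^ 2 : ℝ) : ℂ) - MT) := by ring
        calc ‖((I / M ^ 2 : ℝ) : ℂ)‖ = ‖MT + (((I / M ^ 2 : ℝ) : ℂ) - MT)‖ := by rw [← h4]
          _ ≤ _ := norm_add_le _ _
      have h5 : I / M ^ 2 ≤ ‖((I / M ^ 2 : ℝ) : ℂ)‖ := by
        rw [Complex.norm_real, Real.norm_eq_abs]
        exact le_abs_self _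
      linarith
    have h6 : ‖MT‖ ≤ 2 * Real.log x * (∑ h ∈ Icc 1 H, ∑ l ∈ Icc 1 H,
        ‖A h‖ * ‖A l‖ * (1 / (Nat.lcm h l : ℝ))) / M ^ 2 := by
      rw [hMT]
      refine (norm_sum_le _ _).trans ?_
      rw [mul_sum, sum_div]
      refine sum_le_sum fun h hh => ?_
      refine (norm_sum_le _ _).trans ?_
      rw [mul_sum, sum_div]
      refine sum_le_sum fun l hl => ?_
      rw [mem_Icc] at hh hl
      have hHx : ∀ j : ℕ, j ≤ H → (j : ℝ) ≤ x ^ (1 / 4 : ℝ) := fun j hj =>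
        (by exact_mod_cast hj : (j : ℝ) ≤ H).trans hH
      have hb := log_bd hk1 hx7 hl2 hh.1 hl.1 (hHx h hh.2) (hHx l hl.2)
      rw [norm_mul, norm_mul, RCLike.norm_conj, norm_div, norm_div, Complex.norm_real,
        Complex.norm_real, Real.norm_eq_abs, Real.norm_eq_abs, abs_of_pos hM0, abs_mul,
        abs_of_nonneg (by positivity : (0 : ℝ) ≤ 1 / (Nat.lcm h l : ℝ))]
      calc ‖A h‖ / M * (‖A l‖ / M) * (1 / (Nat.lcm h l : ℝ) *
            |Real.log (Yf k x * (Nat.gcd h l : ℝ) ^ 2 / ((h : ℝ) * l)) + Ck k|)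
          ≤ ‖A h‖ / M * (‖A l‖ / M) * (1 / (Nat.lcm h l : ℝ) * (2 * Real.log x)) := by
            refine mul_le_mul_of_nonneg_left ?_ (by positivity)
            exact mul_le_mul_of_nonneg_left hb (by positivity)
        _ = 2 * Real.log x * (‖A h‖ * ‖A l‖ * (1 / (Nat.lcm h l : ℝ))) / M ^ 2 := by
            field_simp
    have h7 : I / M ^ 2 ≤ 2 * Real.log x * (∑ h ∈ Icc 1 H, ∑ l ∈ Icc 1 H,
        ‖A h‖ * ‖A l‖ * (1 / (Nat.lcm h l : ℝ))) / M ^ 2 + x ^ (-η) := h2.trans (by linarith)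
    have hM2 : 0 < M ^ 2 := by positivity
    rw [div_le_iff₀ hM2, add_mul, div_mul_cancel₀ _ hM2.ne'] at h7
    linarith

/-- the product of a Dirichlet polynomial and the resonator -/
lemma prod_eq {P : Finset ℕ} (hP : ∀ p ∈ P, p.Prime) {Q : ℝ} (y : Finset ℕ → ℂ) {N : ℕ}
    (g : ℕ → ℂ) (c : Finset ℕ × ℕ → ℂ)
    (hc : ∀ x, c x = g x.2 * y x.1 * ((Real.sqrt (qS x.1) : ℝ) : ℂ)) (H : ℕ)
    (hH : ∀ x ∈ FS P Q ×ˢ Icc 1 N, x.2 * qS x.1 ∈ Icc 1 H) (t : ℝ) :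
    DL (fun j => ∑ x ∈ (FS P Q ×ˢ Icc 1 N).filter (fun x => x.2 * qS x.1 = j), c x) H t =
      RS P Q y ((t : ℂ) * Complex.I) * DD g N (cl t) := by
  unfold DL
  rw [fib (FS P Q ×ˢ Icc 1 N) (Icc 1 H) (fun x => x.2 * qS x.1) hH c
    (fun j => (j : ℂ) ^ (-(cl t)))]
  unfold RS DD
  rw [Finset.sum_mul_sum, Finset.sum_product]
  refine Finset.sum_congr rfl fun S hS => Finset.sum_congr rfl fun n _ => ?_
  have hq : 0 < qS S := qS_pos fun p hp => hP p ((mem_FS.1 hS).1 hp)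
  have hq0 : ((qS S : ℕ) : ℂ) ≠ 0 := by exact_mod_cast hq.ne'
  rw [hc]
  simp only
  rw [Nat.cast_mul, Complex.natCast_mul_natCast_cpow]
  have e1 : ((Real.sqrt (qS S) : ℝ) : ℂ) = ((qS S : ℕ) : ℂ) ^ (1 / 2 : ℂ) := by
    rw [Real.sqrt_eq_rpow, Complex.ofReal_cpow (Nat.cast_nonneg _)]
    push_cast
    rfl
  have e2 : ((qS S : ℕ) : ℂ) ^ (-((t : ℂ) * Complex.I)) =
      ((qS S : ℕ) : ℂ) ^ (1 / 2 : ℂ) * ((qS S : ℕ) : ℂ) ^ (-(cl t)) := by
    rw [← Complex.cpow_add _ _ hq0]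
    congr 1
    unfold Pool.Agent.H306R2.SM.cl
    ring
  rw [e1, e2]
  ring

theorem t_TW (hPP : S_PP) (hL : S_LCM) : S_TW := by
  obtain ⟨η', hη', hsm⟩ := smooth
  obtain ⟨X0, hX0⟩ := hsm.exists_forall_of_atTop
  have hη1 : 0 < min (η' / 8) (1 / 100) := lt_min (by positivity) (by norm_num)
  refine ⟨min (η' / 8) (1 / 100), 5000, max (8 * X0) (Real.exp 100), hη1, min_le_right _ _,
    by norm_num, ?_, ?_⟩
  · refine le_max_of_le_right ?_
    have := Real.add_one_le_exp (100 : ℝ)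
    linarith
  intro T hT P r Q K y hP hr hQ1 hQT hK hy N g hN hNT hg
  set η := min (η' / 8) (1 / 100) with hηd
  have hηa : η ≤ η' / 8 := min_le_left _ _
  have hηb : η ≤ 1 / 100 := min_le_right _ _
  have hT1 : 8 * X0 ≤ T := (le_max_left _ _).trans hT
  have hT2 : Real.exp 100 ≤ T := (le_max_right _ _).trans hT
  have hT0 : 0 < T := (Real.exp_pos _).trans_le hT2
  have hT64 : (101 : ℝ) ≤ T := by
    have := Real.add_one_le_exp (100 : ℝ)
    linarith
  set L := Real.log T with hLd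
  have hL100 : 100 ≤ L := by
    rw [hLd, Real.le_log_iff_exp_le hT0]
    exact hT2
  set k := ⌈2 * L ^ 2⌉₊ with hk
  have hk1 : 2 * L ^ 2 ≤ k := Nat.le_ceil _
  have hk2 : (k : ℝ) ≤ 2 * L ^ 2 + 1 := (Nat.ceil_lt_add_one (by positivity)).le
  have hk8 : 8 ≤ k := by
    have : (8 : ℝ) ≤ k := by nlinarith
    exact_mod_cast this
  -- the coefficients
  set c : Finset ℕ × ℕ → ℂ := fun x => g x.2 * y x.1 * ((Real.sqrt (qS x.1) : ℝ) : ℂ) with hc
  have hcx : ∀ x, c x = g x.2 * y x.1 * ((Real.sqrt (qS x.1) : ℝ) : ℂ) := fun _ => rfl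
  set A : ℕ → ℂ := fun j => ∑ x ∈ (FS P Q ×ˢ Icc 1 N).filter (fun x => x.2 * qS x.1 = j), c x
    with hA
  set H : ℕ := N * ⌊Q⌋₊ with hH
  have hmaps : ∀ x ∈ FS P Q ×ˢ Icc 1 N, x.2 * qS x.1 ∈ Icc 1 H := by
    intro x hx
    rw [mem_product, mem_FS, mem_Icc] at hx
    have hq : 0 < qS x.1 := qS_pos fun p hp => hP p (hx.1.1 hp)
    rw [mem_Icc]
    refine ⟨Nat.mul_pos (by omega) hq, Nat.mul_le_mul hx.2.2 (Nat.le_floor hx.1.2)⟩
  have hprod := prod_eq hP (Q := Q) y (N := N) g c hcx H hmaps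
  -- sizes
  have hTr : ∀ a b : ℝ, a ≤ b → T ^ a ≤ T ^ b := fun a b hab =>
    Real.rpow_le_rpow_of_exponent_le (by linarith) hab
  have hsq : T ^ (1 / 2 : ℝ) ≤ T / 8 := by
    have h1 : T ^ (1 / 2 : ℝ) * T ^ (1 / 2 : ℝ) = T := by
      rw [← Real.rpow_add hT0]
      norm_num
    have h2 : 8 ≤ T ^ (1 / 2 : ℝ) := by
      rw [← Real.sqrt_eq_rpow]
      exact Real.le_sqrt_of_sq_le (by linarith)
    nlinarith
  have hHle : (H : ℝ) ≤ T ^ (1 / 8 : ℝ) := by
    rw [hH, Nat.cast_mul]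
    have h1 : ((⌊Q⌋₊ : ℕ) : ℝ) ≤ T ^ η := (Nat.floor_le (by linarith)).trans hQT
    calc (N : ℝ) * (⌊Q⌋₊ : ℕ) ≤ T ^ η * T ^ η :=
          mul_le_mul hNT h1 (Nat.cast_nonneg _) (by positivity)
      _ = T ^ (η + η) := by rw [Real.rpow_add hT0]
      _ ≤ T ^ (1 / 8 : ℝ) := hTr _ _ (by linarith)
  set Sr : ℝ := ∑ S ∈ FS P Q, ∏ p ∈ S, r p with hSr
  have hSr0 : 0 ≤ Sr := sum_nonneg fun S hS =>
    prod_nonneg fun p hp => hr p ((mem_FS.1 hS).1 hp)
  have hM0 : 0 ≤ K * Real.sqrt Q * Sr := by positivity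
  have hcoef : ∀ j, ‖A j‖ ≤ K * Real.sqrt Q * Sr := fun j =>
    coef_le hP hr hK hy hg c hcx j
  have hEP : 0 ≤ EP P r := EP_nonneg hr
  -- the double sum
  have hdbl : ∑ h ∈ Icc 1 H, ∑ l ∈ Icc 1 H, ‖A h‖ * ‖A l‖ * (1 / (Nat.lcm h l : ℝ)) ≤
      K ^ 2 * EP P r * (1 + Real.log N) ^ 3 := by
    set A' : ℕ → ℝ := fun j =>
      ∑ x ∈ (FS P Q ×ˢ Icc 1 N).filter (fun x => x.2 * qS x.1 = j), ‖c x‖ with hA'
    have hAA : ∀ j, ‖A j‖ ≤ A' j := fun j => norm_sum_le _ _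
    have hA0 : ∀ j, 0 ≤ A' j := fun j => sum_nonneg fun _ _ => norm_nonneg _
    have h1 : ∑ h ∈ Icc 1 H, ∑ l ∈ Icc 1 H, ‖A h‖ * ‖A l‖ * (1 / (Nat.lcm h l : ℝ)) ≤
        ∑ h ∈ Icc 1 H, A' h * ∑ l ∈ Icc 1 H, A' l * (1 / (Nat.lcm h l : ℝ)) := by
      refine sum_le_sum fun h _ => ?_
      rw [mul_sum]
      refine sum_le_sum fun l _ => ?_
      rw [← mul_assoc]
      refine mul_le_mul_of_nonneg_right ?_ (by positivity)
      exact mul_le_mul (hAA h) (hAA l) (norm_nonneg _) (hA0 h)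
    have h2 : ∑ h ∈ Icc 1 H, A' h * ∑ l ∈ Icc 1 H, A' l * (1 / (Nat.lcm h l : ℝ)) =
        ∑ x ∈ FS P Q ×ˢ Icc 1 N, ∑ x' ∈ FS P Q ×ˢ Icc 1 N,
          ‖c x‖ * ‖c x'‖ * (1 / (Nat.lcm (x.2 * qS x.1) (x'.2 * qS x'.1) : ℝ)) := by
      rw [fib (FS P Q ×ˢ Icc 1 N) (Icc 1 H) (fun x => x.2 * qS x.1) hmaps (fun x => ‖c x‖)
        (fun h => ∑ l ∈ Icc 1 H, A' l * (1 / (Nat.lcm h l : ℝ)))]
      refine sum_congr rfl fun x _ => ?_
      rw [fib (FS P Q ×ˢ Icc 1 N) (Icc 1 H) (fun x => x.2 * qS x.1) hmaps (fun x => ‖c x‖)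
        (fun l => 1 / (Nat.lcm (x.2 * qS x.1) l : ℝ)), mul_sum]
      refine sum_congr rfl fun x' _ => ?_
      ring
    rw [h2] at h1
    exact h1.trans (dbl_le hPP hL hP hr hK hy hN hg c hcx)
  have hlogN : Real.log N ≤ L := by
    have h1 : Real.log N ≤ Real.log (T ^ η) :=
      Real.log_le_log (by exact_mod_cast hN) hNT
    rw [Real.log_rpow hT0] at h1
    nlinarith
  have hlogN0 : 0 ≤ Real.log N := Real.log_nonneg (by exact_mod_cast hN)
  -- the window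
  have hwin := win (g := fun t => ‖DL A H t‖ ^ 2) ((DL_cont A H).norm.pow 2)
    (fun t => by positivity) (C := (∑ j ∈ Icc 1 H, ‖A j‖) ^ 2) (fun t => by
      rw [abs_of_nonneg (by positivity)]
      exact pow_le_pow_left₀ (norm_nonneg _) (DL_norm A H t) 2) (k := k) hk8 (A := T / 4)
    (T := 8 * T) (S := K ^ 2 * EP P r * (33 * L ^ 4)) (by positivity) (by linarith)
    (by positivity) (by
      intro x hx
      have hx1 : T / 8 < x := by
        have := hx.1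
        linarith
      have hx2 : x ≤ 64 * T := by
        have := hx.2
        linarith
      have hx0 : 0 < x := by linarith
      have hxX : X0 ≤ x := by linarith
      have hl2 := Real.log_two_lt_d9
      have hlx1 : L - 21 / 10 ≤ Real.log x := by
        have h1 : Real.log (T / 8) ≤ Real.log x := Real.log_le_log (by positivity) hx1.le
        rw [Real.log_div hT0.ne' (by norm_num)] at h1
        have h2 : Real.log 8 = 3 * Real.log 2 := by
          rw [show (8 : ℝ) = 2 ^ 3 by norm_num, Real.log_pow]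
          norm_num
        linarith
      have hlx2 : Real.log x ≤ L + 42 / 10 := by
        have h1 : Real.log x ≤ Real.log (64 * T) := Real.log_le_log hx0 hx2
        rw [Real.log_mul (by norm_num) hT0.ne'] at h1
        have h2 : Real.log 64 = 6 * Real.log 2 := by
          rw [show (64 : ℝ) = 2 ^ 6 by norm_num, Real.log_pow]
          norm_num
        linarith
      have hRng : Rng x k := by
        unfold Pool.Agent.H262R4.TM.Rng
        constructor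
        · nlinarith
        · nlinarith
      have hHx : (H : ℝ) ≤ x ^ (1 / 4 : ℝ) := by
        refine hHle.trans ?_
        have h1 : T ^ (1 / 8 : ℝ) = (T ^ (1 / 2 : ℝ)) ^ (1 / 4 : ℝ) := by
          rw [← Real.rpow_mul hT0.le]
          norm_num
        rw [h1]
        exact Real.rpow_le_rpow (by positivity) (by linarith) (by norm_num)
      have h1 := hX0 x hxX k hRng H hHx A (K * Real.sqrt Q * Sr) hM0 hcoef
      refine h1.trans ?_
      have h2 : 2 * Real.log x * (∑ h ∈ Icc 1 H, ∑ l ∈ Icc 1 H,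
          ‖A h‖ * ‖A l‖ * (1 / (Nat.lcm h l : ℝ))) ≤
          K ^ 2 * EP P r * (32 * L ^ 4) := by
        have h3 : 2 * Real.log x ≤ 4 * L := by linarith
        have h4 : (1 + Real.log N) ^ 3 ≤ (2 * L) ^ 3 :=
          pow_le_pow_left₀ (by linarith) (by linarith) 3
        have h5 : 0 ≤ ∑ h ∈ Icc 1 H, ∑ l ∈ Icc 1 H,
            ‖A h‖ * ‖A l‖ * (1 / (Nat.lcm h l : ℝ)) :=
          sum_nonneg fun _ _ => sum_nonneg fun _ _ => by positivity
        calc _ ≤ 4 * L * (K ^ 2 * EP P r * (2 * L) ^ 3) := by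
              refine mul_le_mul h3 (hdbl.trans ?_) h5 (by positivity)
              exact mul_le_mul_of_nonneg_left h4 (by positivity)
          _ = _ := by ring
      have h3 : (K * Real.sqrt Q * Sr) ^ 2 * x ^ (-η') ≤ K ^ 2 * EP P r * L ^ 4 := by
        have h4 : (K * Real.sqrt Q * Sr) ^ 2 ≤ K ^ 2 * EP P r * Q ^ 2 := by
          have h5 := sum_r_sq hr hP (by linarith : (0 : ℝ) ≤ Q)
          rw [mul_pow, mul_pow, Real.sq_sqrt (by linarith)]
          have h6 : K ^ 2 * Q * Sr ^ 2 ≤ K ^ 2 * Q * (Q * EP P r) :=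
            mul_le_mul_of_nonneg_left h5 (by positivity)
          linarith
        have h5 : Q ^ 2 ≤ T ^ (η' / 4) := by
          have h6 : Q ^ 2 ≤ (T ^ η) ^ 2 := pow_le_pow_left₀ (by linarith) hQT 2
          have h7 : (T ^ η) ^ 2 = T ^ (η + η) := by
            rw [sq, ← Real.rpow_add hT0]
          rw [h7] at h6
          exact h6.trans (hTr _ _ (by linarith))
        have h6 : x ^ (-η') ≤ T ^ (-(η' / 2)) := by
          have h7 : x ^ (-η') ≤ (T ^ (1 / 2 : ℝ)) ^ (-η') :=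
            Real.rpow_le_rpow_of_nonpos (by positivity) (by linarith) (by linarith)
          rw [← Real.rpow_mul hT0.le] at h7
          refine h7.trans (le_of_eq ?_)
          congr 1
          ring
        have h7 : Q ^ 2 * x ^ (-η') ≤ 1 := by
          calc Q ^ 2 * x ^ (-η') ≤ T ^ (η' / 4) * T ^ (-(η' / 2)) :=
                mul_le_mul h5 h6 (by positivity) (by positivity)
            _ = T ^ (-(η' / 4)) := by
                rw [← Real.rpow_add hT0]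
                congr 1
                ring
            _ ≤ 1 := Real.rpow_le_one_of_one_le_of_nonpos (by linarith) (by linarith)
        have h8 : 1 ≤ L ^ 4 := one_le_pow₀ (by linarith)
        have h9 : 0 ≤ K ^ 2 * EP P r := by positivity
        calc (K * Real.sqrt Q * Sr) ^ 2 * x ^ (-η') ≤ K ^ 2 * EP P r * Q ^ 2 * x ^ (-η') :=
              mul_le_mul_of_nonneg_right h4 (by positivity)
          _ = K ^ 2 * EP P r * (Q ^ 2 * x ^ (-η')) := by ring
          _ ≤ K ^ 2 * EP P r * 1 := mul_le_mul_of_nonneg_left h7 h9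
          _ ≤ K ^ 2 * EP P r * L ^ 4 := mul_le_mul_of_nonneg_left h8 h9
      linarith)
  have e1 : ∀ v : ℝ, ‖riemannZeta (((1 / 2 : ℝ) : ℂ) + (v : ℂ) * Complex.I)‖ ^ 2 *
      ‖DD g N (((1 / 2 : ℝ) : ℂ) + (v : ℂ) * Complex.I)‖ ^ 2 *
      ‖RS P Q y ((v : ℂ) * Complex.I)‖ ^ 2 = ‖riemannZeta (cl v)‖ ^ 2 * ‖DL A H v‖ ^ 2 := by
    intro v
    have e2 : (((1 / 2 : ℝ) : ℂ) + (v : ℂ) * Complex.I) = cl v := by
      unfold Pool.Agent.H306R2.SM.cl
      push_cast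
      ring
    rw [e2, hprod v, norm_mul]
    ring
  simp_rw [e1]
  refine hwin.trans ?_
  have h9 : 0 ≤ K ^ 2 * EP P r := by positivity
  have h10 : 0 ≤ T * L ^ 4 * (K ^ 2 * EP P r) := by positivity
  nlinarith

end

end Pool.Agent.Y412.OM
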