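import Pool.Agent.Y746.OM.Stm

set_option autoImplicit false

/-! Project OM (helper746), job TW: the arithmetic part. -/

namespace Pool.Agent.Y412.OM

open Finset
open Pool.Agent.Y746.OM

lemma fib {ι R : Type*} [NonUnitalNonAssocSemiring R] (s : Finset ι) (t : Finset ℕ) (π : ι → ℕ)
    (h : ∀ x ∈ s, π x ∈ t) (c : ι → R) (F : ℕ → R) :
    ∑ j ∈ t, (∑ x ∈ s.filter (fun x => π x = j), c x) * F j = ∑ x ∈ s, c x * F (π x) := by
  rw [← Finset.sum_fiberwise_of_maps_to h]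
  refine Finset.sum_congr rfl fun j _ => ?_
  rw [Finset.sum_mul]
  refine Finset.sum_congr rfl fun x hx => ?_
  rw [(Finset.mem_filter.1 hx).2]

lemma qS_pos {S : Finset ℕ} (hS : ∀ p ∈ S, p.Prime) : 0 < qS S :=
  Finset.prod_pos fun p hp => (hS p hp).pos

lemma qS_pf {S : Finset ℕ} (hS : ∀ p ∈ S, p.Prime) : (qS S).primeFactors = S :=
  Nat.primeFactors_prod hS

lemma qS_sqf {S : Finset ℕ} (hS : ∀ p ∈ S, p.Prime) : Squarefree (qS S) := by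
  classical
  unfold qS
  induction S using Finset.induction_on with
  | empty => simp
  | insert p S hp ih =>
    have h1 : ∀ q ∈ S, q.Prime := fun q hq => hS q (Finset.mem_insert_of_mem hq)
    have h2 : p.Prime := hS p (Finset.mem_insert_self _ _)
    rw [Finset.prod_insert hp, Nat.squarefree_mul]
    · exact ⟨h2.squarefree, ih h1⟩
    · refine Nat.Coprime.prod_right fun q hq => ?_
      rw [Nat.coprime_primes h2 (h1 q hq)]
      rintro rfl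
      exact hp hq

lemma qS_cop {S S' : Finset ℕ} (hS : ∀ p ∈ S, p.Prime) (hS' : ∀ p ∈ S', p.Prime)
    (hd : Disjoint S S') : Nat.Coprime (qS S) (qS S') := by
  refine Nat.Coprime.prod_left fun p hp => Nat.Coprime.prod_right fun q hq => ?_
  rw [Nat.coprime_primes (hS p hp) (hS' q hq)]
  rintro rfl
  exact (Finset.disjoint_left.1 hd) hp hq

lemma mem_FS {P : Finset ℕ} {Q : ℝ} {S : Finset ℕ} : S ∈ FS P Q ↔ S ⊆ P ∧ (qS S : ℝ) ≤ Q := by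
  unfold FS
  rw [Finset.mem_filter, Finset.mem_powerset]

lemma card_FS {P : Finset ℕ} (hP : ∀ p ∈ P, p.Prime) {Q : ℝ} (hQ : 0 ≤ Q) :
    ((FS P Q).card : ℝ) ≤ Q := by
  have h1 : (FS P Q).card ≤ (Icc 1 ⌊Q⌋₊).card := by
    refine Finset.card_le_card_of_injOn qS ?_ ?_
    · intro S hS
      rw [Finset.mem_coe, mem_FS] at hS
      rw [Finset.mem_coe, Finset.mem_Icc]
      exact ⟨qS_pos fun p hp => hP p (hS.1 hp), Nat.le_floor hS.2⟩
    · intro S hS S' hS' h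
      rw [Finset.mem_coe, mem_FS] at hS hS'
      rw [← qS_pf fun p hp => hP p (hS.1 hp), ← qS_pf fun p hp => hP p (hS'.1 hp), h]
  rw [Nat.card_Icc, Nat.add_sub_cancel] at h1
  calc ((FS P Q).card : ℝ) ≤ (⌊Q⌋₊ : ℝ) := by exact_mod_cast h1
    _ ≤ Q := Nat.floor_le hQ

lemma EP_nonneg {P : Finset ℕ} {r : ℕ → ℝ} (hr : ∀ p ∈ P, 0 ≤ r p) : 0 ≤ EP P r := by
  unfold EP
  refine Finset.prod_nonneg fun p hp => ?_
  have := hr p hp
  positivity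

lemma sum_r_sq {P : Finset ℕ} {r : ℕ → ℝ} (hr : ∀ p ∈ P, 0 ≤ r p) (hP : ∀ p ∈ P, p.Prime)
    {Q : ℝ} (hQ : 0 ≤ Q) : (∑ S ∈ FS P Q, ∏ p ∈ S, r p) ^ 2 ≤ Q * EP P r := by
  have h1 : (∑ S ∈ FS P Q, ∏ p ∈ S, r p) ^ 2 ≤
      ((FS P Q).card : ℝ) * ∑ S ∈ FS P Q, (∏ p ∈ S, r p) ^ 2 := sq_sum_le_card_mul_sum_sq
  have h2 : ∑ S ∈ FS P Q, (∏ p ∈ S, r p) ^ 2 ≤ ∑ S ∈ P.powerset, (∏ p ∈ S, r p) ^ 2 :=
    Finset.sum_le_sum_of_subset_of_nonneg (Finset.filter_subset _ _) fun _ _ _ => sq_nonneg _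
  have h3 : ∑ S ∈ P.powerset, (∏ p ∈ S, r p) ^ 2 = ∏ p ∈ P, (1 + r p ^ 2) := by
    rw [Finset.prod_one_add]
    refine Finset.sum_congr rfl fun S _ => ?_
    rw [Finset.prod_pow]
  have h4 : ∏ p ∈ P, (1 + r p ^ 2) ≤ EP P r := by
    unfold EP
    refine Finset.prod_le_prod (fun p _ => by positivity) fun p hp => ?_
    have := hr p hp
    have h5 : 0 ≤ 8 * r p / Real.sqrt p := by positivity
    linarith
  have h5 : ∑ S ∈ FS P Q, (∏ p ∈ S, r p) ^ 2 ≤ EP P r := h2.trans (h3.le.trans h4)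
  calc _ ≤ _ := h1
    _ ≤ Q * EP P r := mul_le_mul (card_FS hP hQ) h5
      (Finset.sum_nonneg fun _ _ => sq_nonneg _) hQ

lemma pair_le (hL : S_LCM) {P : Finset ℕ} (hP : ∀ p ∈ P, p.Prime) {S S' : Finset ℕ}
    (hS : S ⊆ P) (hS' : S' ⊆ P) {N : ℕ} (hN : 1 ≤ N) :
    Real.sqrt (qS S) * Real.sqrt (qS S') * (∑ n ∈ Icc 1 N, ∑ m ∈ Icc 1 N,
      (1 : ℝ) / (Nat.lcm (n * qS S) (m * qS S') : ℝ)) ≤
    (1 + Real.log N) ^ 3 *
      ((∏ p ∈ S \ S', 4 / Real.sqrt p) * ∏ p ∈ S' \ S, 4 / Real.sqrt p) := by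
  set u := qS (S \ S') with hu
  set v := qS (S' \ S) with hv
  set d := qS (S ∩ S') with hd
  have pS : ∀ p ∈ S, p.Prime := fun p hp => hP p (hS hp)
  have pS' : ∀ p ∈ S', p.Prime := fun p hp => hP p (hS' hp)
  have pu : ∀ p ∈ S \ S', p.Prime := fun p hp => pS p (Finset.mem_sdiff.1 hp).1
  have pv : ∀ p ∈ S' \ S, p.Prime := fun p hp => pS' p (Finset.mem_sdiff.1 hp).1
  have pd : ∀ p ∈ S ∩ S', p.Prime := fun p hp => pS p (Finset.mem_inter.1 hp).1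
  have u0 : 0 < u := qS_pos pu
  have v0 : 0 < v := qS_pos pv
  have d0 : 0 < d := qS_pos pd
  have e1 : qS S = d * u := by
    rw [hd, hu]
    unfold qS
    exact (Finset.prod_inter_mul_prod_sdiff S S' (fun p => p)).symm
  have e2 : qS S' = d * v := by
    rw [hd, hv, Finset.inter_comm]
    unfold qS
    exact (Finset.prod_inter_mul_prod_sdiff S' S (fun p => p)).symm
  have hdis : Disjoint (S \ S') (S' \ S) := by
    rw [Finset.disjoint_left]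
    intro p h1 h2
    exact (Finset.mem_sdiff.1 h2).2 (Finset.mem_sdiff.1 h1).1
  have hcop : Nat.Coprime u v := qS_cop pu pv hdis
  have hLc := hL u v N (qS_sqf pu) (qS_sqf pv) hcop hN
  have hcard : (u * v).primeFactors.card = (S \ S').card + (S' \ S).card := by
    rw [Nat.primeFactors_mul u0.ne' v0.ne', hu, hv, qS_pf pu, qS_pf pv,
      Finset.card_union_of_disjoint hdis]
  rw [hcard] at hLc
  have du : (0 : ℝ) < d := by exact_mod_cast d0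
  have uu : (0 : ℝ) < u := by exact_mod_cast u0
  have vv : (0 : ℝ) < v := by exact_mod_cast v0
  have e3 : ∑ n ∈ Icc 1 N, ∑ m ∈ Icc 1 N, (1 : ℝ) / (Nat.lcm (n * qS S) (m * qS S') : ℝ) =
      (1 / (d : ℝ)) * ∑ n ∈ Icc 1 N, ∑ m ∈ Icc 1 N, (1 : ℝ) / (Nat.lcm (n * u) (m * v) : ℝ) := by
    rw [Finset.mul_sum]
    refine Finset.sum_congr rfl fun n _ => ?_
    rw [Finset.mul_sum]
    refine Finset.sum_congr rfl fun m _ => ?_
    have e4 : Nat.lcm (n * qS S) (m * qS S') = d * Nat.lcm (n * u) (m * v) := by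
      rw [e1, e2, ← Nat.lcm_mul_left]
      congr 1 <;> ring
    rw [e4, Nat.cast_mul, one_div_mul_one_div]
  have sq1 : Real.sqrt u = ∏ p ∈ S \ S', Real.sqrt p := by
    rw [hu]
    unfold qS
    rw [Nat.cast_prod, Real.sqrt_prod _ fun _ _ => Nat.cast_nonneg _]
  have sq2 : Real.sqrt v = ∏ p ∈ S' \ S, Real.sqrt p := by
    rw [hv]
    unfold qS
    rw [Nat.cast_prod, Real.sqrt_prod _ fun _ _ => Nat.cast_nonneg _]
  have su : 0 < Real.sqrt u := Real.sqrt_pos.2 uu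
  have sv : 0 < Real.sqrt v := Real.sqrt_pos.2 vv
  have sd : 0 < Real.sqrt d := Real.sqrt_pos.2 du
  have e5 : (∏ p ∈ S \ S', 4 / Real.sqrt (p : ℝ)) = 4 ^ (S \ S').card / Real.sqrt u := by
    rw [Finset.prod_div_distrib, Finset.prod_const, sq1]
  have e6 : (∏ p ∈ S' \ S, 4 / Real.sqrt (p : ℝ)) = 4 ^ (S' \ S).card / Real.sqrt v := by
    rw [Finset.prod_div_distrib, Finset.prod_const, sq2]
  have e7 : Real.sqrt (qS S) = Real.sqrt d * Real.sqrt u := by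
    rw [e1, Nat.cast_mul, Real.sqrt_mul du.le]
  have e8 : Real.sqrt (qS S') = Real.sqrt d * Real.sqrt v := by
    rw [e2, Nat.cast_mul, Real.sqrt_mul du.le]
  rw [e3, e5, e6, e7, e8]
  have hdd : Real.sqrt d * Real.sqrt d = d := Real.mul_self_sqrt du.le
  have huu : Real.sqrt u * Real.sqrt u = u := Real.mul_self_sqrt uu.le
  have hvv : Real.sqrt v * Real.sqrt v = v := Real.mul_self_sqrt vv.le
  calc Real.sqrt d * Real.sqrt u * (Real.sqrt d * Real.sqrt v) * ((1 / (d : ℝ)) *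
        ∑ n ∈ Icc 1 N, ∑ m ∈ Icc 1 N, (1 : ℝ) / (Nat.lcm (n * u) (m * v) : ℝ))
      = Real.sqrt u * Real.sqrt v * ∑ n ∈ Icc 1 N, ∑ m ∈ Icc 1 N,
          (1 : ℝ) / (Nat.lcm (n * u) (m * v) : ℝ) := by
        have : Real.sqrt d * Real.sqrt u * (Real.sqrt d * Real.sqrt v) * (1 / (d : ℝ)) =
            Real.sqrt u * Real.sqrt v := by
          rw [show Real.sqrt d * Real.sqrt u * (Real.sqrt d * Real.sqrt v) * (1 / (d : ℝ)) =
            (Real.sqrt d * Real.sqrt d) * (Real.sqrt u * Real.sqrt v) / d by ring, hdd]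
          field_simp
        rw [← mul_assoc, this]
    _ ≤ Real.sqrt u * Real.sqrt v * (4 ^ ((S \ S').card + (S' \ S).card) *
          (1 + Real.log N) ^ 3 / ((u : ℝ) * v)) :=
        mul_le_mul_of_nonneg_left hLc (by positivity)
    _ = (1 + Real.log N) ^ 3 *
          (4 ^ (S \ S').card / Real.sqrt u * (4 ^ (S' \ S).card / Real.sqrt v)) := by
        have h1 : (u : ℝ) * v = (Real.sqrt u * Real.sqrt v) * (Real.sqrt u * Real.sqrt v) := by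
          rw [← huu, ← hvv]
          ring_nf
          rw [Real.sqrt_sq su.le, Real.sqrt_sq sv.le]
        rw [h1, pow_add]
        field_simp

/-- the double sum -/
lemma dbl_le (hPP : S_PP) (hL : S_LCM) {P : Finset ℕ} {r : ℕ → ℝ} {Q K : ℝ}
    {y : Finset ℕ → ℂ} (hP : ∀ p ∈ P, p.Prime) (hr : ∀ p ∈ P, 0 ≤ r p) (hK : 0 ≤ K)
    (hy : ∀ S ∈ FS P Q, ‖y S‖ ≤ K * ∏ p ∈ S, r p) {N : ℕ} (hN : 1 ≤ N) {g : ℕ → ℂ}
    (hg : ∀ k, ‖g k‖ ≤ 1) (c : Finset ℕ × ℕ → ℂ)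
    (hc : ∀ x, c x = g x.2 * y x.1 * ((Real.sqrt (qS x.1) : ℝ) : ℂ)) :
    ∑ x ∈ FS P Q ×ˢ Icc 1 N, ∑ x' ∈ FS P Q ×ˢ Icc 1 N,
      ‖c x‖ * ‖c x'‖ * (1 / (Nat.lcm (x.2 * qS x.1) (x'.2 * qS x'.1) : ℝ)) ≤
    K ^ 2 * EP P r * (1 + Real.log N) ^ 3 := by
  have hrS : ∀ S ∈ FS P Q, 0 ≤ ∏ p ∈ S, r p := fun S hS =>
    Finset.prod_nonneg fun p hp => hr p ((mem_FS.1 hS).1 hp)
  have hcn : ∀ x ∈ FS P Q ×ˢ Icc 1 N, ‖c x‖ ≤ K * (∏ p ∈ x.1, r p) * Real.sqrt (qS x.1) := by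
    intro x hx
    rw [Finset.mem_product] at hx
    rw [hc, norm_mul, norm_mul, Complex.norm_real, Real.norm_eq_abs,
      abs_of_nonneg (Real.sqrt_nonneg _)]
    refine mul_le_mul_of_nonneg_right ?_ (Real.sqrt_nonneg _)
    calc ‖g x.2‖ * ‖y x.1‖ ≤ 1 * (K * ∏ p ∈ x.1, r p) :=
          mul_le_mul (hg _) (hy _ hx.1) (norm_nonneg _) zero_le_one
      _ = _ := one_mul _
  have hlog : 0 ≤ 1 + Real.log N := by
    have : 0 ≤ Real.log N := Real.log_nonneg (by exact_mod_cast hN)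
    linarith
  have h1 : ∑ x ∈ FS P Q ×ˢ Icc 1 N, ∑ x' ∈ FS P Q ×ˢ Icc 1 N,
      ‖c x‖ * ‖c x'‖ * (1 / (Nat.lcm (x.2 * qS x.1) (x'.2 * qS x'.1) : ℝ)) ≤
      ∑ x ∈ FS P Q ×ˢ Icc 1 N, ∑ x' ∈ FS P Q ×ˢ Icc 1 N,
      (K * (∏ p ∈ x.1, r p) * Real.sqrt (qS x.1)) * (K * (∏ p ∈ x'.1, r p) *
        Real.sqrt (qS x'.1)) * (1 / (Nat.lcm (x.2 * qS x.1) (x'.2 * qS x'.1) : ℝ)) := by
    refine Finset.sum_le_sum fun x hx => Finset.sum_le_sum fun x' hx' => ?_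
    refine mul_le_mul_of_nonneg_right ?_ (by positivity)
    refine mul_le_mul (hcn x hx) (hcn x' hx') (norm_nonneg _) ?_
    have := hrS x.1 (Finset.mem_product.1 hx).1
    positivity
  have h2 : ∑ x ∈ FS P Q ×ˢ Icc 1 N, ∑ x' ∈ FS P Q ×ˢ Icc 1 N,
      (K * (∏ p ∈ x.1, r p) * Real.sqrt (qS x.1)) * (K * (∏ p ∈ x'.1, r p) *
        Real.sqrt (qS x'.1)) * (1 / (Nat.lcm (x.2 * qS x.1) (x'.2 * qS x'.1) : ℝ)) =
      ∑ S ∈ FS P Q, ∑ S' ∈ FS P Q, K ^ 2 * ((∏ p ∈ S, r p) * ∏ p ∈ S', r p) *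
        (Real.sqrt (qS S) * Real.sqrt (qS S') * (∑ n ∈ Icc 1 N, ∑ m ∈ Icc 1 N,
          (1 : ℝ) / (Nat.lcm (n * qS S) (m * qS S') : ℝ))) := by
    rw [Finset.sum_product]
    refine Finset.sum_congr rfl fun S _ => ?_
    have h3 : ∀ n ∈ Icc 1 N, ∑ x' ∈ FS P Q ×ˢ Icc 1 N,
        (K * (∏ p ∈ (S, n).1, r p) * Real.sqrt (qS (S, n).1)) * (K * (∏ p ∈ x'.1, r p) *
          Real.sqrt (qS x'.1)) *
          (1 / (Nat.lcm ((S, n).2 * qS (S, n).1) (x'.2 * qS x'.1) : ℝ)) =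
        ∑ S' ∈ FS P Q, ∑ m ∈ Icc 1 N, (K * (∏ p ∈ S, r p) * Real.sqrt (qS S)) *
          (K * (∏ p ∈ S', r p) * Real.sqrt (qS S')) *
          (1 / (Nat.lcm (n * qS S) (m * qS S') : ℝ)) := by
      intro n _
      rw [Finset.sum_product]
    rw [Finset.sum_congr rfl h3, Finset.sum_comm]
    refine Finset.sum_congr rfl fun S' _ => ?_
    simp only [Finset.mul_sum]
    refine Finset.sum_congr rfl fun n _ => Finset.sum_congr rfl fun m _ => ?_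
    ring
  have h4 : ∑ S ∈ FS P Q, ∑ S' ∈ FS P Q, K ^ 2 * ((∏ p ∈ S, r p) * ∏ p ∈ S', r p) *
        (Real.sqrt (qS S) * Real.sqrt (qS S') * (∑ n ∈ Icc 1 N, ∑ m ∈ Icc 1 N,
          (1 : ℝ) / (Nat.lcm (n * qS S) (m * qS S') : ℝ))) ≤
      ∑ S ∈ FS P Q, ∑ S' ∈ FS P Q, K ^ 2 * (1 + Real.log N) ^ 3 *
        ((∏ p ∈ S, r p) * (∏ p ∈ S', r p) *
        ((∏ p ∈ S \ S', 4 / Real.sqrt p) * ∏ p ∈ S' \ S, 4 / Real.sqrt p)) := by
    refine Finset.sum_le_sum fun S hS => Finset.sum_le_sum fun S' hS' => ?_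
    have h5 := pair_le hL hP (mem_FS.1 hS).1 (mem_FS.1 hS').1 hN
    have h6 : 0 ≤ K ^ 2 * ((∏ p ∈ S, r p) * ∏ p ∈ S', r p) :=
      mul_nonneg (sq_nonneg K) (mul_nonneg (hrS S hS) (hrS S' hS'))
    refine (mul_le_mul_of_nonneg_left h5 h6).trans (le_of_eq ?_)
    ring
  have h7 : ∑ S ∈ FS P Q, ∑ S' ∈ FS P Q, K ^ 2 * (1 + Real.log N) ^ 3 *
        ((∏ p ∈ S, r p) * (∏ p ∈ S', r p) *
        ((∏ p ∈ S \ S', 4 / Real.sqrt p) * ∏ p ∈ S' \ S, 4 / Real.sqrt p)) ≤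
      ∑ S ∈ P.powerset, ∑ S' ∈ P.powerset, K ^ 2 * (1 + Real.log N) ^ 3 *
        ((∏ p ∈ S, r p) * (∏ p ∈ S', r p) *
        ((∏ p ∈ S \ S', 4 / Real.sqrt p) * ∏ p ∈ S' \ S, 4 / Real.sqrt p)) := by
    have hnn : ∀ S ∈ P.powerset, ∀ S' ∈ P.powerset, 0 ≤ K ^ 2 * (1 + Real.log N) ^ 3 *
        ((∏ p ∈ S, r p) * (∏ p ∈ S', r p) *
        ((∏ p ∈ S \ S', 4 / Real.sqrt p) * ∏ p ∈ S' \ S, 4 / Real.sqrt p)) := by
      intro S hS S' hS'
      rw [Finset.mem_powerset] at hS hS'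
      have a1 : 0 ≤ ∏ p ∈ S, r p := Finset.prod_nonneg fun p hp => hr p (hS hp)
      have a2 : 0 ≤ ∏ p ∈ S', r p := Finset.prod_nonneg fun p hp => hr p (hS' hp)
      have a3 : 0 ≤ ∏ p ∈ S \ S', 4 / Real.sqrt (p : ℝ) :=
        Finset.prod_nonneg fun p _ => by positivity
      have a4 : 0 ≤ ∏ p ∈ S' \ S, 4 / Real.sqrt (p : ℝ) :=
        Finset.prod_nonneg fun p _ => by positivity
      positivity
    have hsub : FS P Q ⊆ P.powerset := Finset.filter_subset _ _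
    calc _ ≤ ∑ S ∈ FS P Q, ∑ S' ∈ P.powerset, K ^ 2 * (1 + Real.log N) ^ 3 *
        ((∏ p ∈ S, r p) * (∏ p ∈ S', r p) *
        ((∏ p ∈ S \ S', 4 / Real.sqrt p) * ∏ p ∈ S' \ S, 4 / Real.sqrt p)) :=
          Finset.sum_le_sum fun S hS => Finset.sum_le_sum_of_subset_of_nonneg hsub
            fun S' hS' _ => hnn S (hsub hS) S' hS'
      _ ≤ _ := Finset.sum_le_sum_of_subset_of_nonneg hsub
            fun S hS _ => Finset.sum_nonneg fun S' hS' => hnn S hS S' hS'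
  have h8 : ∑ S ∈ P.powerset, ∑ S' ∈ P.powerset, K ^ 2 * (1 + Real.log N) ^ 3 *
        ((∏ p ∈ S, r p) * (∏ p ∈ S', r p) *
        ((∏ p ∈ S \ S', 4 / Real.sqrt p) * ∏ p ∈ S' \ S, 4 / Real.sqrt p)) =
      K ^ 2 * EP P r * (1 + Real.log N) ^ 3 := by
    have h9 := hPP P r (fun p => 4 / Real.sqrt p)
    have h10 : EP P r = ∏ p ∈ P, (1 + r p ^ 2 + 2 * r p * (4 / Real.sqrt p)) := by
      unfold EP
      refine Finset.prod_congr rfl fun p _ => ?_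
      ring
    rw [h10, ← h9]
    simp only [Finset.mul_sum, Finset.sum_mul]
    refine Finset.sum_congr rfl fun S _ => Finset.sum_congr rfl fun S' _ => ?_
    ring
  rw [h2] at h1
  exact h1.trans (h4.trans (h7.trans h8.le))

/-- the coefficients -/
lemma coef_le {P : Finset ℕ} {r : ℕ → ℝ} {Q K : ℝ} {y : Finset ℕ → ℂ}
    (hP : ∀ p ∈ P, p.Prime) (hr : ∀ p ∈ P, 0 ≤ r p) (hK : 0 ≤ K)
    (hy : ∀ S ∈ FS P Q, ‖y S‖ ≤ K * ∏ p ∈ S, r p) {N : ℕ} {g : ℕ → ℂ}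
    (hg : ∀ k, ‖g k‖ ≤ 1) (c : Finset ℕ × ℕ → ℂ)
    (hc : ∀ x, c x = g x.2 * y x.1 * ((Real.sqrt (qS x.1) : ℝ) : ℂ)) (j : ℕ) :
    ‖∑ x ∈ (FS P Q ×ˢ Icc 1 N).filter (fun x => x.2 * qS x.1 = j), c x‖ ≤
      K * Real.sqrt Q * ∑ S ∈ FS P Q, ∏ p ∈ S, r p := by
  have hrS : ∀ S ∈ FS P Q, 0 ≤ ∏ p ∈ S, r p := fun S hS =>
    Finset.prod_nonneg fun p hp => hr p ((mem_FS.1 hS).1 hp)
  refine (norm_sum_le _ _).trans ?_
  have h1 : ∑ x ∈ (FS P Q ×ˢ Icc 1 N).filter (fun x => x.2 * qS x.1 = j), ‖c x‖ ≤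
      ∑ x ∈ (FS P Q ×ˢ Icc 1 N).filter (fun x => x.2 * qS x.1 = j),
        K * Real.sqrt Q * ∏ p ∈ x.1, r p := by
    refine Finset.sum_le_sum fun x hx => ?_
    rw [Finset.mem_filter, Finset.mem_product] at hx
    rw [hc, norm_mul, norm_mul, Complex.norm_real, Real.norm_eq_abs,
      abs_of_nonneg (Real.sqrt_nonneg _)]
    have a1 : Real.sqrt (qS x.1) ≤ Real.sqrt Q := Real.sqrt_le_sqrt (mem_FS.1 hx.1.1).2
    calc ‖g x.2‖ * ‖y x.1‖ * Real.sqrt (qS x.1) ≤ 1 * (K * ∏ p ∈ x.1, r p) * Real.sqrt Q := by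
          refine mul_le_mul (mul_le_mul (hg _) (hy _ hx.1.1) (norm_nonneg _) zero_le_one) a1
            (Real.sqrt_nonneg _) ?_
          rw [one_mul]
          exact mul_nonneg hK (hrS _ hx.1.1)
      _ = _ := by ring
  refine h1.trans ?_
  rw [Finset.sum_filter, Finset.sum_product, Finset.mul_sum]
  refine Finset.sum_le_sum fun S hS => ?_
  have hq : 0 < qS S := qS_pos fun p hp => hP p ((mem_FS.1 hS).1 hp)
  have hnn : 0 ≤ K * Real.sqrt Q * ∏ p ∈ S, r p :=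
    mul_nonneg (mul_nonneg hK (Real.sqrt_nonneg _)) (hrS S hS)
  by_cases h2 : ∃ n ∈ Icc 1 N, n * qS S = j
  · obtain ⟨n, hn, hnj⟩ := h2
    rw [Finset.sum_eq_single n]
    · rw [if_pos hnj]
    · intro m _ hm
      rw [if_neg]
      intro h3
      exact hm (Nat.eq_of_mul_eq_mul_right hq (h3.trans hnj.symm))
    · intro h3
      exact absurd hn h3
  · rw [Finset.sum_eq_zero]
    · exact hnn
    · intro n hn
      rw [if_neg]
      intro h3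
      exact h2 ⟨n, hn, h3⟩

end Pool.Agent.Y412.OM
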